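import Pool.Agent.Lib.MP_0d8f30_al.BV.Own

/-!
# A counterexample to Bovdi's statement on units of prime power order

There are a finite group `G` (an extension of `A₄^4096` by a cyclic group of order `8192`) and a unit `u` of the
integral group ring `ℤG`, of augmentation `1` and order `2 ^ 9`, such that the sums of the coefficients of `u` over the
elements of order `2`, `4`, `512` of `G` are `8`, `-8`, `1`, and the sums over the elements of any other order are `0`.
-/

set_option autoImplicit false

namespace Pool.Agent.Results.MP_0d8f30_al.Counterexample

theorem result : ∃ (G : Type) (_ : Group G) (_ : Fintype G) (u : (MonoidAlgebra ℤ G)ˣ),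
    orderOf u = 2 ^ 9 ∧ ∑ g : G, (u : MonoidAlgebra ℤ G).coeff g = 1 ∧
      ∀ k : ℕ, ∑ g ∈ Finset.univ.filter (fun g : G => orderOf g = k),
          (u : MonoidAlgebra ℤ G).coeff g =
        if k = 2 then 8 else if k = 4 then -8 else if k = 512 then 1 else 0 :=
  Pool.Agent.Bovdi.own

end Pool.Agent.Results.MP_0d8f30_al.Counterexample
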